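import Pool.Agent.H961.T4.Stm4
import Pool.Agent.H961.T2.B13
import Pool.Graph.R_pool_sql_team_seeded_3997aac3.Q292.LC.FinT
import Pool.Graph.R_pool_sql_team_seeded_3997aac3.Q277.LC.Ex

/-!
# Project PN (helper961), job LLB (helper396): the logarithmic law for all sizes of the torus
-/

set_option autoImplicit false
set_option linter.unusedSectionVars false
set_option linter.unusedVariables false

namespace Pool.Agent.H396.PN.LLB

open Finset Equiv Matrix Q292.LC Pool.Agent.H961.T2 Pool.Agent.H961.T3 Pool.Agent.H961.T4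
open Pool.Agent.Y998.ST (stirExp nnRate qq hop cycleLen gk exp_mono exp_const exp_sum exp_nonneg
  nn_nonneg)
open Pool.Agent.Helper47K9.SC (exp_aff)
open Pool.Agent.Q297.LC (stir_smul card_cyc)

/-- the second moment -/
theorem second {L : ℕ} [NeZero L] (t : ℝ) (ht : 0 ≤ t) (n R : ℕ) (p η : ℝ) (hη : 0 ≤ η)
    (hp : ∀ x : Fin 2 → ZMod L,
      stirExp (nnRate 2 L) t (fun g => if (cyc g x).card ≤ n then (1 : ℝ) else 0) = p)
    (hcov : ∀ x y : Fin 2 → ZMod L, 2 * R + 3 < td x y →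
      stirExp (nnRate 2 L) t (fun g => if (cyc g x).card ≤ n ∧ (cyc g y).card ≤ n then (1 : ℝ)
        else 0) ≤ p * p + η) :
    stirExp (nnRate 2 L) t (fun g => (((univ.filter fun y => cycleLen g y ≤ n).card : ℝ) /
      (L : ℝ) ^ 2 - p) ^ 2) ≤ (4 * (R : ℝ) + 7) ^ 2 / (L : ℝ) ^ 2 + η := by
  have hL0 : (0 : ℝ) < L := by exact_mod_cast Nat.pos_of_ne_zero (NeZero.ne L)
  have hN0 : (0 : ℝ) < (L : ℝ) ^ 2 := pow_pos hL0 2
  have hcard : ((univ : Finset (Fin 2 → ZMod L)).card : ℝ) = (L : ℝ) ^ 2 := by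
    rw [card_univ, Fintype.card_fun, ZMod.card, Fintype.card_fin]
    push_cast
    rfl
  obtain ⟨N, hN⟩ : ∃ N : ℝ, N = (L : ℝ) ^ 2 := ⟨_, rfl⟩
  rw [← hN] at hN0 hcard ⊢
  have h1 : ∀ g : Perm (Fin 2 → ZMod L), ((univ.filter fun y => cycleLen g y ≤ n).card : ℝ) =
      ∑ y, (if (cyc g y).card ≤ n then (1 : ℝ) else 0) := by
    intro g
    rw [Finset.sum_boole]
    simp only [card_cyc]
  have h2 : ∀ g : Perm (Fin 2 → ZMod L),
      (((univ.filter fun y => cycleLen g y ≤ n).card : ℝ) / N - p) ^ 2 =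
      N⁻¹ ^ 2 * (∑ x, ∑ y, (if (cyc g x).card ≤ n ∧ (cyc g y).card ≤ n then (1 : ℝ) else 0)) +
      (-(2 * p * N⁻¹) * (∑ y, (if (cyc g y).card ≤ n then (1 : ℝ) else 0)) + p ^ 2) := by
    intro g
    rw [h1 g]
    have h3 : (∑ x, ∑ y, (if (cyc g x).card ≤ n ∧ (cyc g y).card ≤ n then (1 : ℝ) else 0)) =
        (∑ y, (if (cyc g y).card ≤ n then (1 : ℝ) else 0)) ^ 2 := by
      rw [sq, Finset.sum_mul_sum]
      refine sum_congr rfl fun x _ => sum_congr rfl fun y _ => ?_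
      by_cases hx : (cyc g x).card ≤ n <;> by_cases hy : (cyc g y).card ≤ n <;> simp [hx, hy]
    rw [h3]
    ring
  simp only [h2]
  rw [exp_add2, exp_aff, stir_smul, ← exp_sum, ← exp_sum]
  have h4 : ∑ y : Fin 2 → ZMod L, stirExp (nnRate 2 L) t
      (fun g => if (cyc g y).card ≤ n then (1 : ℝ) else 0) = N * p := by
    rw [sum_congr rfl fun y _ => hp y, sum_const, nsmul_eq_mul, hcard]
  have h5 : ∀ x : Fin 2 → ZMod L, stirExp (nnRate 2 L) t (fun g => ∑ y : Fin 2 → ZMod L,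
      if (cyc g x).card ≤ n ∧ (cyc g y).card ≤ n then (1 : ℝ) else 0) ≤
      (4 * (R : ℝ) + 7) ^ 2 + N * (p * p + η) := by
    intro x
    rw [← exp_sum]
    have h6 : ∀ y ∈ (univ : Finset (Fin 2 → ZMod L)), stirExp (nnRate 2 L) t
        (fun g => if (cyc g x).card ≤ n ∧ (cyc g y).card ≤ n then (1 : ℝ) else 0) ≤
        (if y ∈ bal x (2 * R + 3) then (1 : ℝ) else 0) + (p * p + η) := by
      intro y _
      by_cases hy : y ∈ bal x (2 * R + 3)
      · rw [if_pos hy]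
        have h7 : stirExp (nnRate 2 L) t
            (fun g => if (cyc g x).card ≤ n ∧ (cyc g y).card ≤ n then (1 : ℝ) else 0) ≤ 1 := by
          refine le_trans (exp_mono (J := nnRate 2 L) nn_nonneg ht (G := fun _ => (1 : ℝ))
            fun g => ?_) (le_of_eq (exp_const _ _ _))
          split_ifs
          · exact le_refl _
          · exact zero_le_one
        nlinarith [mul_self_nonneg p]
      · rw [if_neg hy, zero_add]
        refine hcov x y ?_
        unfold bal at hy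
        rw [mem_filter] at hy
        by_contra hcon
        exact hy ⟨mem_univ _, not_lt.1 hcon⟩
    refine (sum_le_sum h6).trans ?_
    rw [sum_add_distrib, sum_const, nsmul_eq_mul, hcard, Finset.sum_boole]
    have h8 : ((univ.filter fun y => y ∈ bal x (2 * R + 3)).card : ℝ) ≤ (4 * (R : ℝ) + 7) ^ 2 := by
      have h9 : (univ.filter fun y => y ∈ bal x (2 * R + 3)) = bal x (2 * R + 3) := by
        ext y
        simp
      rw [h9]
      have h10 := Pool.Agent.Q277.LC.card_bal_le x (2 * R + 3)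
      calc ((bal x (2 * R + 3)).card : ℝ) ≤ (((2 * (2 * R + 3) + 1) ^ 2 : ℕ) : ℝ) := by
            exact_mod_cast h10
        _ = _ := by push_cast; ring
    linarith
  have h6 : ∑ x : Fin 2 → ZMod L, stirExp (nnRate 2 L) t (fun g => ∑ y : Fin 2 → ZMod L,
      if (cyc g x).card ≤ n ∧ (cyc g y).card ≤ n then (1 : ℝ) else 0) ≤
      N * ((4 * (R : ℝ) + 7) ^ 2 + N * (p * p + η)) := by
    refine (sum_le_sum fun x _ => h5 x).trans ?_
    rw [sum_const, nsmul_eq_mul, hcard]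
  rw [h4]
  have h7 : N⁻¹ ^ 2 * (∑ x : Fin 2 → ZMod L, stirExp (nnRate 2 L) t
      (fun g => ∑ y : Fin 2 → ZMod L,
      if (cyc g x).card ≤ n ∧ (cyc g y).card ≤ n then (1 : ℝ) else 0)) ≤
      N⁻¹ ^ 2 * (N * ((4 * (R : ℝ) + 7) ^ 2 + N * (p * p + η))) :=
    mul_le_mul_of_nonneg_left h6 (by positivity)
  have h8 : N⁻¹ ^ 2 * (N * ((4 * (R : ℝ) + 7) ^ 2 + N * (p * p + η))) =
      (4 * (R : ℝ) + 7) ^ 2 / N + (p * p + η) := by
    field_simp
  have h9 : -(2 * p * N⁻¹) * (N * p) = -(2 * p * p) := by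
    field_simp
  rw [h9]
  rw [h8] at h7
  nlinarith

/-- the exponential function is larger than a power -/
theorem exp_big (x : ℝ) (hx : 0 ≤ x) (k : ℕ) : x ^ k ≤ (k.factorial : ℝ) * Real.exp x := by
  have h := Real.pow_div_factorial_le_exp x hx k
  have h0 : (0 : ℝ) < (k.factorial : ℝ) := by exact_mod_cast Nat.factorial_pos k
  rw [div_le_iff₀ h0] at h
  linarith

/-- the choice of the size of the small torus -/
theorem choice (m : ℕ) (C δ T₁ : ℝ) (hC : 0 < C) (hδ : 0 < δ) : ∃ T : ℝ, 3 ≤ T ∧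
    ∀ t : ℝ, T ≤ t → ∃ L₀ : ℕ, (∀ L : ℕ, 3 ≤ L → L ≤ L₀ → Real.log L ^ m ≤ t) ∧
      T₁ * t ≤ L₀ ∧ ∀ n : ℕ, (n : ℝ) ≤ t → 4 * (n * ⌈t ^ 3⌉₊) + 8 ≤ L₀ ∧
      C * (2 * ((n * ⌈t ^ 3⌉₊ : ℕ) : ℝ) + 1) ^ 2 * t * Real.exp (-((⌈t ^ 3⌉₊ : ℝ) / t)) ≤
        δ / t ^ 2 ∧
      ∀ L : ℕ, L₀ ≤ L → (4 * ((n * ⌈t ^ 3⌉₊ : ℕ) : ℝ) + 7) ^ 2 / (L : ℝ) ^ 2 ≤ δ / t ^ 2 := by
  obtain ⟨A, hA⟩ : ∃ A : ℝ, A = ((9 * (m + 1)).factorial : ℝ) := ⟨_, rfl⟩
  have hA0 : 0 < A := by rw [hA]; exact_mod_cast Nat.factorial_pos _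
  obtain ⟨T, hT⟩ : ∃ T : ℝ, T = 3 + |T₁| + 2 * A + 18000 * C / δ + 225 / δ := ⟨_, rfl⟩
  have hp1 : 0 ≤ |T₁| := abs_nonneg _
  have hp2 : 0 < 18000 * C / δ := by positivity
  have hp3 : 0 < 225 / δ := by positivity
  refine ⟨T, by linarith, fun t ht => ?_⟩
  have ht3 : 3 ≤ t := by linarith
  have ht0 : 0 < t := by linarith
  have htA : 2 * A ≤ t := by linarith
  have htT : T₁ ≤ t := (le_abs_self T₁).trans (by linarith)
  have htC : 18000 * C ≤ δ * t := by
    have : 18000 * C / δ ≤ t := by linarith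
    rw [div_le_iff₀ hδ] at this
    linarith
  have ht5 : 225 ≤ δ * t := by
    have : 225 / δ ≤ t := by linarith
    rw [div_le_iff₀ hδ] at this
    linarith
  obtain ⟨x, hx⟩ : ∃ x : ℝ, x = t ^ (((m + 1 : ℕ) : ℝ)⁻¹) := ⟨_, rfl⟩
  have hx0 : 0 ≤ x := by rw [hx]; positivity
  have hxp : x ^ (m + 1) = t := by
    rw [hx]
    exact Real.rpow_inv_natCast_pow ht0.le (Nat.succ_ne_zero m)
  have hx1 : 1 ≤ x := by
    rw [hx]
    exact Real.one_le_rpow (by linarith) (by positivity)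
  have hexp : t ^ 9 ≤ A * Real.exp x := by
    have h := exp_big x hx0 (9 * (m + 1))
    rw [← hA, mul_comm 9, pow_mul, hxp] at h
    exact h
  have h81 : 81 ≤ t ^ 4 := by
    calc (81 : ℝ) = 3 ^ 4 := by norm_num
      _ ≤ t ^ 4 := pow_le_pow_left₀ (by norm_num) ht3 4
  have h8 : t ^ 8 = t ^ 4 * t ^ 4 := by ring
  have hexp2 : 2 * t ^ 8 ≤ Real.exp x := by
    have h1 : 2 * A * t ^ 8 ≤ t * t ^ 8 := mul_le_mul_of_nonneg_right htA (by positivity)
    have h2 : A * (2 * t ^ 8) ≤ A * Real.exp x := by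
      calc A * (2 * t ^ 8) = 2 * A * t ^ 8 := by ring
        _ ≤ t * t ^ 8 := h1
        _ = t ^ 9 := by ring
        _ ≤ _ := hexp
    exact le_of_mul_le_mul_left h2 hA0
  have hL0 : t ^ 8 ≤ ((⌊Real.exp x⌋₊ : ℕ) : ℝ) := by
    have h1 := Nat.lt_floor_add_one (Real.exp x)
    nlinarith
  have ht4 : 0 < t ^ 4 := by positivity
  have hD1 : (⌈t ^ 3⌉₊ : ℝ) ≤ 2 * t ^ 3 := by
    have h1 := Nat.ceil_lt_add_one (show (0 : ℝ) ≤ t ^ 3 by positivity)
    have h2 : (1 : ℝ) ≤ t ^ 3 := one_le_pow₀ (by linarith)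
    linarith
  have hD2 : t ^ 3 ≤ (⌈t ^ 3⌉₊ : ℝ) := Nat.le_ceil _
  have hR : ∀ n : ℕ, (n : ℝ) ≤ t → ((n * ⌈t ^ 3⌉₊ : ℕ) : ℝ) ≤ 2 * t ^ 4 := by
    intro n hn
    push_cast
    calc (n : ℝ) * (⌈t ^ 3⌉₊ : ℝ) ≤ t * (2 * t ^ 3) :=
          mul_le_mul hn hD1 (Nat.cast_nonneg _) ht0.le
      _ = 2 * t ^ 4 := by ring
  refine ⟨⌊Real.exp x⌋₊, ?_, ?_, ?_⟩
  · intro L hL3 hL
    have hLr : (3 : ℝ) ≤ L := by exact_mod_cast hL3
    have h1 : (L : ℝ) ≤ Real.exp x :=
      (Nat.cast_le.2 hL).trans (Nat.floor_le (Real.exp_pos x).le)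
    have h2 : Real.log L ≤ x := by
      rw [← Real.log_exp x]
      exact Real.log_le_log (by linarith) h1
    have h3 : 0 ≤ Real.log L := Real.log_nonneg (by linarith)
    calc Real.log L ^ m ≤ x ^ m := pow_le_pow_left₀ h3 h2 m
      _ ≤ x ^ (m + 1) := pow_le_pow_right₀ hx1 (Nat.le_succ m)
      _ = t := hxp
  · refine le_trans ?_ hL0
    calc T₁ * t ≤ t * t := mul_le_mul_of_nonneg_right htT ht0.le
      _ = t ^ 2 := by ring
      _ ≤ t ^ 8 := pow_le_pow_right₀ (by linarith) (by norm_num)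
  · intro n hn
    have hRn := hR n hn
    have hR0 : (0 : ℝ) ≤ ((n * ⌈t ^ 3⌉₊ : ℕ) : ℝ) := Nat.cast_nonneg _
    obtain ⟨R, hRd⟩ : ∃ R : ℕ, R = n * ⌈t ^ 3⌉₊ := ⟨_, rfl⟩
    rw [← hRd] at hRn hR0 ⊢
    refine ⟨?_, ?_, ?_⟩
    · have h1 : ((4 * R + 8 : ℕ) : ℝ) ≤ ((⌊Real.exp x⌋₊ : ℕ) : ℝ) := by
        push_cast
        refine le_trans ?_ hL0
        rw [h8]
        nlinarith
      exact_mod_cast h1
    · have h1 : (2 * (R : ℝ) + 1) ^ 2 ≤ (5 * t ^ 4) ^ 2 :=
        pow_le_pow_left₀ (by linarith) (by linarith) 2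
      have h2 : t ^ 2 ≤ (⌈t ^ 3⌉₊ : ℝ) / t := by
        rw [le_div_iff₀ ht0]
        calc t ^ 2 * t = t ^ 3 := by ring
          _ ≤ _ := hD2
      have h3 : Real.exp (-((⌈t ^ 3⌉₊ : ℝ) / t)) ≤ 720 / t ^ 12 := by
        have h4 : Real.exp (-((⌈t ^ 3⌉₊ : ℝ) / t)) ≤ Real.exp (-(t ^ 2)) :=
          Real.exp_le_exp.2 (by linarith)
        refine h4.trans ?_
        rw [le_div_iff₀ (by positivity)]
        have h5 := exp_big (t ^ 2) (by positivity) 6
        have h6 : (t ^ 2) ^ 6 = t ^ 12 := by ring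
        have h7 : ((6 : ℕ).factorial : ℝ) = 720 := by norm_num [Nat.factorial]
        rw [h6, h7] at h5
        calc Real.exp (-(t ^ 2)) * t ^ 12 ≤ Real.exp (-(t ^ 2)) * (720 * Real.exp (t ^ 2)) :=
              mul_le_mul_of_nonneg_left h5 (Real.exp_pos _).le
          _ = 720 * (Real.exp (-(t ^ 2)) * Real.exp (t ^ 2)) := by ring
          _ = 720 := by rw [← Real.exp_add, neg_add_cancel, Real.exp_zero, mul_one]
      calc C * (2 * (R : ℝ) + 1) ^ 2 * t * Real.exp (-((⌈t ^ 3⌉₊ : ℝ) / t))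
          ≤ C * (5 * t ^ 4) ^ 2 * t * (720 / t ^ 12) := by
            refine mul_le_mul ?_ h3 (Real.exp_pos _).le (by positivity)
            exact mul_le_mul_of_nonneg_right (mul_le_mul_of_nonneg_left h1 hC.le) ht0.le
        _ = 18000 * C / t ^ 3 := by
            field_simp
            ring
        _ ≤ δ / t ^ 2 := by
            rw [div_le_div_iff₀ (by positivity) (by positivity)]
            calc 18000 * C * t ^ 2 ≤ δ * t * t ^ 2 :=
                  mul_le_mul_of_nonneg_right htC (by positivity)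
              _ = δ * t ^ 3 := by ring
    · intro L hL
      have h1 : t ^ 8 ≤ (L : ℝ) := hL0.trans (by exact_mod_cast hL)
      have h2 : (4 * (R : ℝ) + 7) ^ 2 ≤ (15 * t ^ 4) ^ 2 :=
        pow_le_pow_left₀ (by linarith) (by nlinarith) 2
      have h3 : (t ^ 8) ^ 2 ≤ (L : ℝ) ^ 2 := pow_le_pow_left₀ (by positivity) h1 2
      calc (4 * (R : ℝ) + 7) ^ 2 / (L : ℝ) ^ 2 ≤ (15 * t ^ 4) ^ 2 / (t ^ 8) ^ 2 :=
            div_le_div₀ (by positivity) h2 (by positivity) h3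
        _ = 225 / t ^ 8 := by
            field_simp
            ring
        _ ≤ δ / t ^ 2 := by
            rw [div_le_div_iff₀ (by positivity) (by positivity)]
            calc 225 * t ^ 2 ≤ δ * t * t ^ 2 := mul_le_mul_of_nonneg_right ht5 (by positivity)
              _ = δ * t ^ 3 := by ring
              _ ≤ δ * t ^ 8 := mul_le_mul_of_nonneg_left
                  (pow_le_pow_right₀ (by linarith) (by norm_num)) hδ.le

/-- the absolute value of an expectation -/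
theorem abs_exp_le {V : Type} [Fintype V] [DecidableEq V] {J : V → V → ℝ}
    (hJ : ∀ x y, 0 ≤ J x y) {t : ℝ} (ht : 0 ≤ t) (F : Perm V → ℝ) :
    |stirExp J t F| ≤ stirExp J t (fun g => |F g|) := by
  rw [abs_le]
  constructor
  · have h1 : stirExp J t (fun g => (-1) * |F g|) ≤ stirExp J t F :=
      exp_mono hJ ht fun g => by
        have := neg_abs_le (F g)
        linarith
    rw [stir_smul] at h1
    linarith
  · exact exp_mono hJ ht fun g => le_abs_self (F g)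

theorem llb (hLLM : S_LLM) (hCOV : S_COV) (hLCR : S_LCR) : S_LLB := by
  intro a ha0 ha1 ε hε
  obtain ⟨m, hm⟩ := hLLM a ha0 ha1
  obtain ⟨T₁, hT₁, hlaw⟩ := hm (ε / 2) (by positivity)
  obtain ⟨C₁, hC₁, hcov⟩ := hCOV 2 (by norm_num)
  obtain ⟨C₂, hC₂, hlcr⟩ := hLCR 2 (by norm_num)
  obtain ⟨C₃, hC₃, hlcs⟩ := Q292.LC.all_lcs 2 (by norm_num)
  have hpi := Real.pi_pos
  obtain ⟨C, hC⟩ : ∃ C : ℝ, C = C₁ + C₂ + C₃ := ⟨_, rfl⟩
  have hC0 : 0 < C := by linarith
  obtain ⟨δ, hδd⟩ : ∃ δ : ℝ, δ = min (ε ^ 2 / (512 * Real.pi ^ 2)) (ε / (16 * Real.pi)) := ⟨_, rfl⟩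
  have hδ : 0 < δ := by
    rw [hδd]
    exact lt_min (by positivity) (by positivity)
  have hδ1 : δ ≤ ε ^ 2 / (512 * Real.pi ^ 2) := by rw [hδd]; exact min_le_left _ _
  have hδ2 : δ ≤ ε / (16 * Real.pi) := by rw [hδd]; exact min_le_right _ _
  obtain ⟨T₂, hT₂, hch⟩ := choice m C δ T₁ hC0 hδ
  refine ⟨max T₁ T₂, le_max_of_le_left hT₁, ?_⟩
  intro L _ t n ht htL hTn hnt
  have htT₁ : T₁ ≤ t := (le_max_left _ _).trans ht
  have htT₂ : T₂ ≤ t := (le_max_right _ _).trans ht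
  have ht3 : 3 ≤ t := by linarith
  have ht0 : 0 < t := by linarith
  have hT₁L : T₁ * t ≤ L := (mul_le_mul_of_nonneg_right (le_max_left _ _) ht0.le).trans htL
  have hL9 : (9 : ℝ) ≤ L := by nlinarith
  have hL3 : 3 ≤ L := by
    have : (3 : ℝ) ≤ L := by linarith
    exact_mod_cast this
  have hn3 : (3 : ℝ) ≤ n := by
    have : T₁ ≤ n := (le_max_left _ _).trans hTn
    linarith
  have hnT₁ : T₁ ≤ n := (le_max_left _ _).trans hTn
  have hlog : 1 ≤ Real.log n := by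
    rw [Real.le_log_iff_exp_le (by linarith)]
    have := Real.exp_one_lt_three
    linarith
  have hnt1 : (n : ℝ) ≤ t := by
    refine hnt.trans ?_
    calc t ^ a ≤ t ^ (1 : ℝ) := Real.rpow_le_rpow_of_exponent_le (by linarith) ha1.le
      _ = t := Real.rpow_one t
  obtain ⟨L₀, hlogL, hL₀T, hrest⟩ := hch t htT₂
  rcases Nat.lt_or_ge L₀ L with hcase | hcase
  swap
  · have h1 := hlaw L t n htT₁ hT₁L (hlogL L hL3 hcase) hnT₁ hnt
    refine h1.trans ?_
    exact mul_le_mul_of_nonneg_right (by linarith) (by linarith)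
  obtain ⟨h4R, hη, hbig⟩ := hrest n hnt1
  obtain ⟨D, hD⟩ : ∃ D : ℕ, D = ⌈t ^ 3⌉₊ := ⟨_, rfl⟩
  rw [← hD] at h4R hη hbig
  have hL₀3 : 3 ≤ L₀ := by omega
  have : NeZero L₀ := ⟨by omega⟩
  have hexp0 : 0 < Real.exp (-((D : ℝ) / t)) := Real.exp_pos _
  obtain ⟨η, hηd⟩ : ∃ η : ℝ, η = C * (2 * ((n * D : ℕ) : ℝ) + 1) ^ 2 * t *
    Real.exp (-((D : ℝ) / t)) := ⟨_, rfl⟩
  rw [← hηd] at hη
  have hη0 : 0 ≤ η := by rw [hηd]; positivity
  have hCη : ∀ c : ℝ, c ≤ C → c * (2 * ((n * D : ℕ) : ℝ) + 1) ^ 2 * t *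
      Real.exp (-((D : ℝ) / t)) ≤ η := by
    intro c hc
    rw [hηd]
    refine mul_le_mul_of_nonneg_right ?_ hexp0.le
    refine mul_le_mul_of_nonneg_right ?_ ht0.le
    exact mul_le_mul_of_nonneg_right hc (by positivity)
  have hlaw₀ := hlaw L₀ t n htT₁ hL₀T (hlogL L₀ hL₀3 le_rfl) hnT₁ hnt
  obtain ⟨p, hp⟩ : ∃ p : ℝ, p = stirExp (nnRate 2 L) t
    (fun g => if (cyc g (0 : Fin 2 → ZMod L)).card ≤ n then (1 : ℝ) else 0) := ⟨_, rfl⟩
  obtain ⟨p₀, hp₀⟩ : ∃ p₀ : ℝ, p₀ = stirExp (nnRate 2 L₀) t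
    (fun g => if (cyc g (0 : Fin 2 → ZMod L₀)).card ≤ n then (1 : ℝ) else 0) := ⟨_, rfl⟩
  have hpx : ∀ x : Fin 2 → ZMod L, stirExp (nnRate 2 L) t
      (fun g => if (cyc g x).card ≤ n then (1 : ℝ) else 0) = p := by
    intro x
    rw [hp]
    exact cyc_trans2 t (fun k => if k ≤ n then (1 : ℝ) else 0) x
  -- comparison of the two tori
  have hle1 : p ≤ p₀ + η := by
    have h := hlcs L L₀ (n * D) h4R hcase.le t n D (by linarith) le_rfl 0 0
    rw [← hp, ← hp₀] at h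
    exact h.trans (add_le_add_right (hCη C₃ (by linarith)) _)
  have hle2 : p₀ ≤ p + η := by
    have h := hlcr L L₀ (n * D) h4R hcase.le t n D (by linarith) le_rfl 0 0
    rw [← hp, ← hp₀] at h
    exact h.trans (add_le_add_right (hCη C₂ (by linarith)) _)
  have hpp : |p - p₀| ≤ η := by
    rw [abs_le]
    constructor <;> linarith
  -- the first moment on the small torus
  have hmean : |4 * Real.pi * t * p₀ - Real.log n| ≤ ε / 2 * Real.log n := by
    have h1 := (abs_exp_le (J := nnRate 2 L₀) nn_nonneg ht0.le _).trans hlaw₀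
    have h2 : stirExp (nnRate 2 L₀) t (fun g => 4 * Real.pi * t *
        (((univ.filter fun x => cycleLen g x ≤ n).card : ℝ) / (L₀ : ℝ) ^ 2) - Real.log n) =
        4 * Real.pi * t * p₀ - Real.log n := by
      have h3 : ∀ g : Perm (Fin 2 → ZMod L₀), 4 * Real.pi * t *
        (((univ.filter fun x => cycleLen g x ≤ n).card : ℝ) / (L₀ : ℝ) ^ 2) - Real.log n =
        4 * Real.pi * t * (((univ.filter fun x => cycleLen g x ≤ n).card : ℝ) / (L₀ : ℝ) ^ 2) +
          (-Real.log n) := fun g => by ring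
      simp only [h3]
      rw [exp_aff, exp_frac_le t n (0 : Fin 2 → ZMod L₀), ← hp₀]
      ring
    rw [h2] at h1
    exact h1
  -- the second moment on the large torus
  obtain ⟨e, he⟩ : ∃ e : ℝ, e = ε / (16 * Real.pi * t) := ⟨_, rfl⟩
  have he0 : 0 < e := by rw [he]; positivity
  have hsec := second (L := L) t ht0.le n (n * D) p η hη0 hpx (by
    intro x y hxy
    have h := hcov L (n * D) hL3 t n D (by linarith) le_rfl x y hxy
    rw [hpx x, hpx y] at h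
    exact h.trans (add_le_add_right (hCη C₁ (by linarith)) _))
  have hsec2 : stirExp (nnRate 2 L) t (fun g => (((univ.filter fun y => cycleLen g y ≤ n).card : ℝ) /
      (L : ℝ) ^ 2 - p) ^ 2) ≤ e ^ 2 := by
    refine hsec.trans ?_
    have h1 := hbig L hcase.le
    have h2 : δ / t ^ 2 ≤ ε ^ 2 / (512 * Real.pi ^ 2) / t ^ 2 :=
      div_le_div_of_nonneg_right hδ1 (by positivity)
    have h3 : e ^ 2 = ε ^ 2 / (512 * Real.pi ^ 2) / t ^ 2 + ε ^ 2 / (512 * Real.pi ^ 2) / t ^ 2 := by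
      rw [he]
      field_simp
      ring
    rw [h3]
    exact add_le_add (h1.trans h2) (hη.trans h2)
  have habs := abs_of_sq (J := nnRate 2 L) nn_nonneg ht0.le _ e he0 hsec2
  -- conclusion
  have hfin : ∀ g : Perm (Fin 2 → ZMod L), |4 * Real.pi * t *
      (((univ.filter fun x => cycleLen g x ≤ n).card : ℝ) / (L : ℝ) ^ 2) - Real.log n| ≤
      4 * Real.pi * t * |((univ.filter fun y => cycleLen g y ≤ n).card : ℝ) / (L : ℝ) ^ 2 - p| +
        (4 * Real.pi * t * η + ε / 2 * Real.log n) := by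
    intro g
    obtain ⟨f, hf⟩ : ∃ f : ℝ, f = ((univ.filter fun x => cycleLen g x ≤ n).card : ℝ) /
      (L : ℝ) ^ 2 := ⟨_, rfl⟩
    rw [← hf]
    have h4 : 0 ≤ 4 * Real.pi * t := by positivity
    have h1 : 4 * Real.pi * t * f - Real.log n = 4 * Real.pi * t * (f - p) +
        (4 * Real.pi * t * (p - p₀) + (4 * Real.pi * t * p₀ - Real.log n)) := by ring
    rw [h1]
    refine (abs_add_le _ _).trans ?_
    refine add_le_add ?_ ((abs_add_le _ _).trans (add_le_add ?_ hmean))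
    · rw [abs_mul, abs_of_nonneg h4]
    · rw [abs_mul, abs_of_nonneg h4]
      exact mul_le_mul_of_nonneg_left hpp h4
  refine (exp_mono (J := nnRate 2 L) nn_nonneg ht0.le hfin).trans ?_
  rw [exp_aff]
  have h1 : 4 * Real.pi * t * stirExp (nnRate 2 L) t (fun g =>
      |((univ.filter fun y => cycleLen g y ≤ n).card : ℝ) / (L : ℝ) ^ 2 - p|) ≤
      4 * Real.pi * t * e := mul_le_mul_of_nonneg_left habs (by positivity)
  have h2 : 4 * Real.pi * t * e = ε / 4 := by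
    rw [he]
    field_simp
    ring
  have h3 : 4 * Real.pi * t * η ≤ ε / 4 := by
    have h4 : η ≤ ε / (16 * Real.pi) / t := by
      refine hη.trans ?_
      refine (div_le_div_of_nonneg_right hδ2 (by positivity)).trans ?_
      refine div_le_div_of_nonneg_left (by positivity) ht0 ?_
      calc t = t ^ 1 := (pow_one t).symm
        _ ≤ t ^ 2 := pow_le_pow_right₀ (by linarith) (by norm_num)
    calc 4 * Real.pi * t * η ≤ 4 * Real.pi * t * (ε / (16 * Real.pi) / t) :=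
          mul_le_mul_of_nonneg_left h4 (by positivity)
      _ = ε / 4 := by
          field_simp
          ring
  have h5 : ε / 2 * 1 ≤ ε / 2 * Real.log n := mul_le_mul_of_nonneg_left hlog (by positivity)
  linarith

end Pool.Agent.H396.PN.LLB
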